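import Pool.Agent.Helper17.SA.St3

/-!
# Module MN2 of project SA: many colours
-/

set_option autoImplicit false

open scoped Pointwise

namespace Pool.Agent.Helper15.SA

open Equiv Pool.Agent.Helper17.SA

theorem mn2_conj_inj {S : Type} [Group S] (hs : IsSimpleGroup S) (hc : ∃ a b : S, a * b ≠ b * a) :
    Function.Injective (MulAut.conj : S →* MulAut S) := by
  rw [injective_iff_map_eq_one]
  intro x hx
  have h1 : x ∈ Subgroup.center S := by
    rw [Subgroup.mem_center_iff]
    intro g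
    have h2 : MulAut.conj x g = g := by
      rw [hx]
      rfl
    rw [MulAut.conj_apply] at h2
    rw [← eq_mul_inv_iff_mul_eq]
    exact h2.symm
  have h3 : (Subgroup.center S).Normal := inferInstance
  rcases h3.eq_bot_or_eq_top with h4 | h4
  · rw [h4, Subgroup.mem_bot] at h1
    exact h1
  · exfalso
    obtain ⟨a, b, hab⟩ := hc
    apply hab
    have h5 : b ∈ Subgroup.center S := by
      rw [h4]
      exact Subgroup.mem_top b
    exact Subgroup.mem_center_iff.1 h5 a

theorem mn2_rel {Ω : Type} [DecidableEq Ω] {S : Ω → Type} [∀ ω, Group (S ω)] [∀ ω, Finite (S ω)]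
    (R : Subgroup (MulAut (∀ ω, S ω))) (ω : Ω) (x x' : S ω) (h : Rel R ω ω x x') :
    ∃ t ∈ Res R ω, ∃ t' ∈ Res R ω, MulAut.conj x' = t * MulAut.conj x * t' := by
  obtain ⟨y, hy, r, hr, h⟩ := h
  choose f hf1 hf2 using h
  have hinj : Function.Injective (Pi.mulSingle ω : S ω → ∀ ω, S ω) := Pi.mulSingle_injective ω
  have hmul : ∀ a b, f (a * b) = f a * f b := by
    intro a b
    apply hinj
    rw [← hf1, Pi.mulSingle_mul, map_mul, hf1, hf1, Pi.mulSingle_mul]
  have hfinj : Function.Injective f := by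
    intro a b hab
    apply hinj
    apply y.injective
    rw [hf1, hf1, hab]
  have hbij : Function.Bijective f := Finite.injective_iff_bijective.1 hfinj
  let t : MulAut (S ω) := MulEquiv.ofBijective (MonoidHom.mk' f hmul) hbij
  have ht : ∀ a, t a = f a := fun a => rfl
  have htR : t ∈ Res R ω := ⟨y, hy, fun a => by rw [hf1, ht]⟩
  have ht'R : MulAut.conj x' * t * (MulAut.conj x)⁻¹ ∈ Res R ω := by
    refine ⟨r, hr, fun a => ?_⟩
    have h1 := hf2 (x⁻¹ * a * x)
    have h2 : x * (x⁻¹ * a * x) * x⁻¹ = a := by group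
    rw [h2] at h1
    rw [h1]
    congr 1
  refine ⟨_, ht'R, t⁻¹, (Res R ω).inv_mem htR, ?_⟩
  group

theorem pMN2 : StMN1 → StPER → StCOL → StMN2 := by
  classical
  intro hMN1 _ hCOL Ω _ _ S _ _ hs hc R ω c g κ hκ
  obtain ⟨hrefl, hsymm, htrans, -⟩ := hMN1 Ω S hs hc R
  have hfin : Finite (MulAut (S ω)) := inferInstance
  let I : Subgroup (MulAut (S ω)) := (MulAut.conj : S ω →* MulAut (S ω)).range
  have hI : I.Normal := by
    constructor
    rintro _ ⟨a, rfl⟩ φ
    refine ⟨φ a, ?_⟩
    ext b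
    rw [MulAut.mul_apply, MulAut.mul_apply, MulAut.conj_apply, MulAut.conj_apply, map_mul, map_mul,
      map_inv, MulAut.apply_inv_self]
  set β := Nat.card (Res R ω) *
    Nat.card {t : MulAut (S ω) // t ∈ Res R ω ∧ ∃ a : S ω, t = MulAut.conj a} with hβ
  have hcard : Nat.card {t : MulAut (S ω) // t ∈ Res R ω ∧ t ∈ I} =
      Nat.card {t : MulAut (S ω) // t ∈ Res R ω ∧ ∃ a : S ω, t = MulAut.conj a} := by
    apply Nat.card_congr
    apply Equiv.subtypeEquivRight
    intro t
    apply and_congr_right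
    intro _
    constructor
    · rintro ⟨a, rfl⟩
      exact ⟨a, rfl⟩
    · rintro ⟨a, rfl⟩
      exact ⟨a, rfl⟩
  -- every element is related to at most `β` elements
  have key : ∀ x : S ω, Nat.card {x' : S ω // Rel R ω ω x x'} ≤ β := by
    intro x
    have h1 := hCOL (MulAut (S ω)) I (Res R ω) (MulAut.conj x) ⟨x, rfl⟩
    rw [hcard] at h1
    refine le_trans ?_ h1
    apply Nat.card_le_card_of_injective
      (fun x' : {x' : S ω // Rel R ω ω x x'} =>
        (⟨MulAut.conj x'.1, ⟨x'.1, rfl⟩, mn2_rel R ω x x'.1 x'.2⟩ :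
          {β : MulAut (S ω) // β ∈ I ∧ ∃ t ∈ Res R ω, ∃ t' ∈ Res R ω,
            β = t * MulAut.conj x * t'}))
    intro x' x'' h
    apply Subtype.ext
    exact mn2_conj_inj (hs ω) (hc ω) (congrArg Subtype.val h)
  -- the classes
  let s : Setoid (S ω) :=
    { r := fun n n' => Rel R ω ω (c * n) (c * n')
      iseqv := ⟨fun n => hrefl ω (c * n), fun {n n'} h => hsymm ω ω _ _ h,
        fun {n n' n''} h h' => htrans ω ω ω _ _ _ h h'⟩ }
  let mk : S ω → Quotient s := Quotient.mk s
  have hmk : ∀ n n', mk n = mk n' ↔ Rel R ω ω (c * n) (c * n') := fun n n' => Quotient.eq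
  have h2 : g.card ≤ β * (g.image mk).card := by
    apply Finset.card_le_mul_card_image
    intro q hq
    rw [Finset.mem_image] at hq
    obtain ⟨n0, hn0, rfl⟩ := hq
    refine le_trans ?_ (key (c * n0))
    rw [← Fintype.card_coe, ← Nat.card_eq_fintype_card]
    apply Nat.card_le_card_of_injective
      (fun n : {n // n ∈ g.filter fun n => mk n = mk n0} =>
        (⟨c * n.1, (hmk n0 n.1).1 (Finset.mem_filter.1 n.2).2.symm⟩ :
          {x' : S ω // Rel R ω ω (c * n0) x'}))
    intro n n' h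
    apply Subtype.ext
    exact mul_left_cancel (congrArg Subtype.val h)
  have h3 : κ + 1 ≤ (g.image mk).card := by
    by_contra h4
    have h5 : (g.image mk).card ≤ κ := by omega
    have h6 : β * (g.image mk).card ≤ β * κ := Nat.mul_le_mul_left _ h5
    have h7 : κ * Nat.card (Res R ω) *
        Nat.card {t : MulAut (S ω) // t ∈ Res R ω ∧ ∃ a : S ω, t = MulAut.conj a} = β * κ := by
      rw [hβ]
      ring
    rw [h7] at hκ
    omega
  obtain ⟨t, ht1, ht2⟩ := Finset.exists_subset_card_eq h3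
  have h4 : ∀ q : Quotient s, ∃ n : S ω, q ∈ t → n ∈ g ∧ mk n = q := by
    intro q
    by_cases hq : q ∈ t
    · have h5 := ht1 hq
      rw [Finset.mem_image] at h5
      obtain ⟨n, hn, hn'⟩ := h5
      exact ⟨n, fun _ => ⟨hn, hn'⟩⟩
    · exact ⟨1, fun h => absurd h hq⟩
  choose rep hrep using h4
  refine ⟨t.image rep, ?_, ?_, ?_⟩
  · intro n hn
    rw [Finset.mem_image] at hn
    obtain ⟨q, hq, rfl⟩ := hn
    exact (hrep q hq).1
  · rw [Finset.card_image_of_injOn, ht2]
    intro q hq q' hq' h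
    rw [← (hrep q hq).2, ← (hrep q' hq').2, h]
  · intro n hn n' hn' h
    rw [Finset.mem_image] at hn hn'
    obtain ⟨q, hq, rfl⟩ := hn
    obtain ⟨q', hq', rfl⟩ := hn'
    have h5 : mk (rep q) = mk (rep q') := (hmk _ _).2 h
    rw [(hrep q hq).2, (hrep q' hq').2] at h5
    rw [h5]

end Pool.Agent.Helper15.SA
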