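import Pool.Agent.Helper17.SA.St

set_option autoImplicit false

/-! Project SA (MP_21f9f3_al), module NUM: numerical check in the kernel. The trinomial coefficients are the digits
of a power of `1 + x + x ^ 2`, `x = 2 ^ 128`. -/

namespace Pool.Agent.Helper15.SA

open Equiv Pool.Agent.Helper17.SA

theorem T_out : ∀ (n k : ℕ), 2 * n < k → T n k = 0 := by
  intro n
  induction n with
  | zero =>
    intro k hk
    obtain ⟨j, rfl⟩ : ∃ j, k = j + 1 := ⟨k - 1, by omega⟩
    rfl
  | succ n ih =>
    intro k hk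
    obtain ⟨j, rfl⟩ : ∃ j, k = j + 2 := ⟨k - 2, by omega⟩
    show T n (j + 2) + T n (j + 1) + T n j = 0
    rw [ih _ (by omega), ih _ (by omega), ih _ (by omega)]

theorem T_le : ∀ (n k : ℕ), T n k ≤ 3 ^ n := by
  intro n
  induction n with
  | zero =>
    intro k
    rcases k with _ | k
    · exact le_refl _
    · exact Nat.zero_le _
  | succ n ih =>
    intro k
    have hp : 3 ^ (n + 1) = 3 ^ n + 3 ^ n + 3 ^ n := by ring
    rcases k with _ | _ | k
    · show T n 0 ≤ _
      have := ih 0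
      omega
    · show T n 1 + T n 0 ≤ _
      have := ih 0
      have := ih 1
      omega
    · show T n (k + 2) + T n (k + 1) + T n k ≤ _
      have := ih k
      have := ih (k + 1)
      have := ih (k + 2)
      omega

theorem T_sum (x n : ℕ) :
    ∀ N, 2 * n < N → ∑ k ∈ Finset.range N, T n k * x ^ k = (1 + x + x ^ 2) ^ n := by
  induction n with
  | zero =>
    intro N hN
    obtain ⟨M, rfl⟩ : ∃ M, N = M + 1 := ⟨N - 1, by omega⟩
    rw [Finset.sum_range_succ', pow_zero]
    have : ∑ k ∈ Finset.range M, T 0 (k + 1) * x ^ (k + 1) = 0 := by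
      apply Finset.sum_eq_zero
      intro k _
      show 0 * x ^ (k + 1) = 0
      rw [zero_mul]
    rw [this]
    show 0 + 1 * x ^ 0 = 1
    simp
  | succ n ih =>
    intro N hN
    obtain ⟨M, rfl⟩ : ∃ M, N = M + 2 := ⟨N - 2, by omega⟩
    have h0 := ih M (by omega)
    have h1 := ih (M + 1) (by omega)
    have h2 := ih (M + 2) (by omega)
    rw [Finset.sum_range_succ', Finset.sum_range_succ']
    have e1 : ∀ k, T (n + 1) (k + 1 + 1) * x ^ (k + 1 + 1) =
        T n (k + 1 + 1) * x ^ (k + 1 + 1) + x * (T n (k + 1) * x ^ (k + 1)) +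
          x ^ 2 * (T n k * x ^ k) := by
      intro k
      show (T n (k + 2) + T n (k + 1) + T n k) * x ^ (k + 1 + 1) = _
      ring
    simp only [e1]
    rw [Finset.sum_add_distrib, Finset.sum_add_distrib, ← Finset.mul_sum, ← Finset.mul_sum]
    rw [Finset.sum_range_succ', Finset.sum_range_succ'] at h2
    rw [Finset.sum_range_succ'] at h1
    have e2 : T (n + 1) (0 + 1) = T n (0 + 1) + T n 0 := rfl
    have e3 : T (n + 1) 0 = T n 0 := rfl
    rw [e2, e3, pow_succ (1 + x + x ^ 2) n]
    calc _ = (∑ k ∈ Finset.range M, T n (k + 1 + 1) * x ^ (k + 1 + 1) + T n (0 + 1) * x ^ (0 + 1)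
            + T n 0 * x ^ 0)
          + x * (∑ k ∈ Finset.range M, T n (k + 1) * x ^ (k + 1) + T n 0 * x ^ 0)
          + x ^ 2 * ∑ k ∈ Finset.range M, T n k * x ^ k := by ring
      _ = _ := by
          rw [h0, h1, h2]
          ring

theorem dig (x : ℕ) : ∀ (j N : ℕ) (a : ℕ → ℕ), (∀ k, a k < x) →
    (∑ k ∈ Finset.range N, a k * x ^ k) / x ^ j % x = if j < N then a j else 0 := by
  intro j
  induction j with
  | zero =>
    intro N a ha
    rcases N with _ | N
    · simp
    · rw [Finset.sum_range_succ', if_pos (Nat.succ_pos N), pow_zero, Nat.div_one, mul_one]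
      have : ∑ k ∈ Finset.range N, a (k + 1) * x ^ (k + 1) =
          x * ∑ k ∈ Finset.range N, a (k + 1) * x ^ k := by
        rw [Finset.mul_sum]
        apply Finset.sum_congr rfl
        intro k _
        ring
      rw [this, Nat.mul_add_mod, Nat.mod_eq_of_lt (ha 0)]
  | succ j ih =>
    intro N a ha
    have hx : 0 < x := lt_of_le_of_lt (Nat.zero_le _) (ha 0)
    rcases N with _ | N
    · simp
    · rw [Finset.sum_range_succ', pow_zero, mul_one]
      have h1 : ∑ k ∈ Finset.range N, a (k + 1) * x ^ (k + 1) =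
          x * ∑ k ∈ Finset.range N, a (k + 1) * x ^ k := by
        rw [Finset.mul_sum]
        apply Finset.sum_congr rfl
        intro k _
        ring
      rw [h1, pow_succ', ← Nat.div_div_eq_div_mul, Nat.mul_add_div hx,
        Nat.div_eq_of_lt (ha 0), add_zero, ih N (fun k => a (k + 1)) (fun k => ha (k + 1))]
      by_cases h : j < N
      · rw [if_pos h, if_pos (by omega)]
      · rw [if_neg h, if_neg (by omega)]

/-- The base. -/
def xx : ℕ := 2 ^ 128

/-- Digit number `k`. -/
def tt (X k : ℕ) : ℕ := X / xx ^ k % xx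

theorem tt_eq (n k : ℕ) (hn : 3 ^ n < xx) : tt ((1 + xx + xx ^ 2) ^ n) k = T n k := by
  unfold tt
  rw [← T_sum xx n (2 * n + 1) (by omega), dig xx k (2 * n + 1) (T n)
    (fun k => lt_of_le_of_lt (T_le n k) hn)]
  split_ifs with h
  · rfl
  · exact (T_out n k (by omega)).symm

/-- Horner's rule. -/
def hr (p m X : ℕ) : ℕ → ℕ → ℕ → ℕ
  | 0, r, _ => r
  | k + 1, r, F => hr p m X k (p * (p - 1) ^ 2 * (k + 1) * ((tt X (k + 1)) ^ 2 * F + r))
      (F * (m - p * k).descFactorial p)

theorem hr_eq (p m X : ℕ) : ∀ (k r F : ℕ), p * k ≤ m → F = (m - p * k).factorial →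
    hr p m X k r F = ∑ i ∈ Finset.Icc 1 k, ((p - 1) ^ i * tt X i) ^ 2 * (m - p * i).factorial *
      p ^ i * i.factorial + (p * (p - 1) ^ 2) ^ k * k.factorial * r := by
  intro k
  induction k with
  | zero =>
    intro r F _ _
    simp [hr]
  | succ k ih =>
    intro r F hk hF
    have hk' : p * k + p ≤ m := by rw [Nat.mul_succ] at hk; exact hk
    have h1 : F * (m - p * k).descFactorial p = (m - p * k).factorial := by
      rw [hF, Nat.mul_succ, ← Nat.sub_sub]
      exact Nat.factorial_mul_descFactorial (by omega)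
    rw [hr, ih _ _ (by omega) h1, Finset.sum_Icc_succ_top (by omega), ← hF, Nat.factorial_succ]
    ring

/-- The computed value of `W`. -/
def Wc (p m : ℕ) : ℕ :=
  hr p m ((1 + xx + xx ^ 2) ^ (m / p)) (m / p) 0 (m - p * (m / p)).factorial

theorem Wc_eq (p m : ℕ) (hn : 3 ^ (m / p) < xx) : Wc p m = W (RT p) p m := by
  unfold Wc W RT
  rw [hr_eq p m _ (m / p) 0 _ (Nat.mul_div_le m p) rfl, mul_zero, add_zero]
  apply Finset.sum_congr rfl
  intro i _
  rw [tt_eq _ _ hn]

/-- The check. -/
def chk (m : ℕ) : Bool :=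
  Nat.blt (Wc 2 m + Wc 3 m / 2 + Wc 5 m / 4 + Wc 7 m / 6 + m.factorial / 10000) m.factorial

set_option maxRecDepth 100000 in
theorem chk1 : ∀ m < 150, 22 ≤ m → chk m = true := by decide +kernel

theorem pNUM : StNUM := by
  intro m h1 h2
  have h := chk1 m h2 h1
  unfold chk at h
  have h3 := Nat.le_of_ble_eq_true h
  have hx : (3 : ℕ) ^ 74 < xx := by decide +kernel
  have hb : ∀ p, 2 ≤ p → 3 ^ (m / p) < xx := by
    intro p hp
    refine lt_of_le_of_lt (Nat.pow_le_pow_right (by norm_num) ?_) hx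
    calc m / p ≤ m / 2 := Nat.div_le_div_left hp (by norm_num)
      _ ≤ 74 := by omega
  rw [Wc_eq 2 m (hb 2 (by norm_num)), Wc_eq 3 m (hb 3 (by norm_num)),
    Wc_eq 5 m (hb 5 (by norm_num)), Wc_eq 7 m (hb 7 (by norm_num))] at h3
  exact h3

end Pool.Agent.Helper15.SA
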